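import Pool.Agent.Q131.FB.Defs

set_option autoImplicit false

/-!
# Project FB of helper131: flip graphs from matrices, products, cubes, the upper bound
-/

namespace Pool.Agent.Q104.FB

open Finset Matrix Kronecker Q131.FB Q131

/-! ### FB1 -/

/-- A flip graph from a family of matrices (the statement `S_flip` with `0 < k`). -/
theorem flip (k : ℕ) (hk : 0 < k) (V : Type) [Fintype V] (M : Fin k → Matrix V V ℝ)
    (a : Fin k → ℕ) (t : Fin k → ℝ) (h : HasType M a t)
    (hlt : ∀ i j : Fin k, i < j → 2 * (a j : ℝ) + t j < 2 * (a i : ℝ) + t i) :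
    ∃ G : SimpleGraph V, Flip.IsFlipGraph a G := by
  classical
  let G : SimpleGraph V :=
    { Adj := fun x y => ∃ j, M j x y = 1
      symm := ⟨fun x y ⟨j, hj⟩ => ⟨j, by rw [h.symm]; exact hj⟩⟩
      loopless := ⟨fun x ⟨j, hj⟩ => by
        rw [h.diag] at hj
        exact zero_ne_one hj⟩ }
  let ch : (Fin k → Prop) → Fin k := fun p => if hx : ∃ j, p j then hx.choose else ⟨0, hk⟩
  let g : V → V → Fin k := fun x y => ch (fun j => M j x y = 1)
  have hg : ∀ x y, g x y = g y x := by
    intro x y
    have e : (fun j => M j x y = 1) = (fun j => M j y x = 1) := by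
      funext j
      rw [h.symm]
    exact congrArg ch e
  let f : Sym2 V → Fin k := Sym2.lift ⟨g, hg⟩
  have hval : ∀ x y j, M j x y = 1 → f s(x, y) = j := by
    intro x y j hj
    change g x y = j
    have hx : ∃ j, M j x y = 1 := ⟨j, hj⟩
    simp only [g, ch]
    rw [dif_pos hx]
    have h1 := hx.choose_spec
    rcases h.val x y with h2 | ⟨i, _, h3⟩
    · rw [h2] at hj
      exact absurd hj zero_ne_one
    · have e1 : hx.choose = i := by
        by_contra hne
        rw [h3 _ hne] at h1
        exact zero_ne_one h1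
      have e2 : j = i := by
        by_contra hne
        rw [h3 _ hne] at hj
        exact zero_ne_one hj
      rw [e1, e2]
  have hind : ∀ j x y, Flip.ind G f j x y = M j x y := by
    intro j x y
    unfold Flip.ind
    by_cases hj : M j x y = 1
    · rw [if_pos ⟨⟨j, hj⟩, hval x y j hj⟩, hj]
    · rw [if_neg]
      · rcases h.val x y with h2 | ⟨i, h2, h3⟩
        · rw [h2]
        · have : j ≠ i := fun e => hj (e ▸ h2)
          rw [h3 j this]
      · rintro ⟨⟨i, hi⟩, h4⟩
        rw [hval x y i hi] at h4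
        exact hj (h4 ▸ hi)
  have hadj : ∀ x y, Flip.adjI G x y = (∑ i, M i) x y := by
    intro x y
    rw [← Flip.sum_ind G f x y, Matrix.sum_apply]
    exact Finset.sum_congr rfl fun j _ => hind j x y
  have hdeg : ∀ j v, Flip.colDeg G f v j = a j := by
    intro j v
    have h1 := Flip.sum_ind_row G f j v
    simp only [hind] at h1
    rw [h.row] at h1
    exact_mod_cast h1.symm
  refine ⟨G, f, hdeg, ?_⟩
  intro v i j hij
  have key : ∀ j, (2 : ℝ) * Flip.closedCount G f v j = 2 * a j + t j := by
    intro j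
    rw [Flip.two_closedCount, hdeg, ← h.tri j v]
    congr 1
    rw [Matrix.mul_apply, Finset.sum_comm]
    apply Finset.sum_congr rfl
    intro y _
    rw [Matrix.mul_apply, Finset.sum_mul]
    apply Finset.sum_congr rfl
    intro x _
    rw [hadj, hadj, hind]
  have h1 := hlt i j hij
  rw [← key i, ← key j] at h1
  have h2 : (Flip.closedCount G f v j : ℝ) < Flip.closedCount G f v i := by linarith
  exact_mod_cast h2

/-! ### FB2 -/

theorem sum_kron_one {k : ℕ} {V W : Type} [DecidableEq W] (M : Fin k → Matrix V V ℝ) :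
    ∑ j, (M j ⊗ₖ (1 : Matrix W W ℝ)) = (∑ j, M j) ⊗ₖ (1 : Matrix W W ℝ) := by
  ext x y
  rw [Matrix.sum_apply, Matrix.kroneckerMap_apply, Matrix.sum_apply, Finset.sum_mul]
  rfl

theorem sum_kron' {k : ℕ} {V W : Type} (A : Matrix V V ℝ) (N : Fin k → Matrix W W ℝ) :
    ∑ j, (A ⊗ₖ N j) = A ⊗ₖ (∑ j, N j) := by
  ext x y
  rw [Matrix.sum_apply, Matrix.kroneckerMap_apply, Matrix.sum_apply, Finset.mul_sum]
  rfl

theorem sum_diag {k : ℕ} {V : Type} [Fintype V] {M : Fin k → Matrix V V ℝ} {a : Fin k → ℕ}
    {t : Fin k → ℝ} (h : HasType M a t) (x : V) : (∑ j, M j) x x = 0 := by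
  rw [Matrix.sum_apply]
  exact Finset.sum_eq_zero fun j _ => h.diag j x

theorem prod : S_prod := by
  intro k V W _ _ _ _ M N a b t u hM hN
  have happ : ∀ j (x y : V × W), (M j ⊗ₖ (1 : Matrix W W ℝ) + (1 : Matrix V V ℝ) ⊗ₖ N j) x y =
      M j x.1 y.1 * (if x.2 = y.2 then 1 else 0) + (if x.1 = y.1 then 1 else 0) * N j x.2 y.2 := by
    intro j x y
    rw [Matrix.add_apply, Matrix.kroneckerMap_apply, Matrix.kroneckerMap_apply, Matrix.one_apply,
      Matrix.one_apply]
  refine ⟨?_, ?_, ?_, ?_, ?_⟩
  · intro x y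
    simp only [happ]
    by_cases h2 : x.2 = y.2
    · by_cases h1 : x.1 = y.1
      · left
        intro j
        rw [h1, h2, hM.diag, hN.diag]
        ring
      · rcases hM.val x.1 y.1 with h | ⟨j, hj, hi⟩
        · left
          intro j
          rw [h, if_neg h1]
          ring
        · right
          refine ⟨j, ?_, ?_⟩
          · rw [hj, if_pos h2, if_neg h1]
            ring
          · intro i hij
            rw [hi i hij, if_neg h1]
            ring
    · by_cases h1 : x.1 = y.1
      · rcases hN.val x.2 y.2 with h | ⟨j, hj, hi⟩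
        · left
          intro j
          rw [h, if_neg h2]
          ring
        · right
          refine ⟨j, ?_, ?_⟩
          · rw [hj, if_neg h2, if_pos h1]
            ring
          · intro i hij
            rw [hi i hij, if_neg h2]
            ring
      · left
        intro j
        rw [if_neg h1, if_neg h2]
        ring
  · intro j x y
    rw [happ, happ, hM.symm j x.1 y.1, hN.symm j x.2 y.2]
    simp only [eq_comm]
  · intro j x
    rw [happ, hM.diag, hN.diag]
    ring
  · intro j x
    obtain ⟨x, i⟩ := x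
    simp only [Matrix.add_apply, Finset.sum_add_distrib]
    rw [Flip.row_kron, Flip.row_kron, Flip.row_one, Flip.row_one, hM.row, hN.row]
    push_cast
    ring
  · intro j x
    obtain ⟨x, i⟩ := x
    rw [Finset.sum_add_distrib, sum_kron_one, sum_kron']
    have hS := sum_diag hM
    have hT := sum_diag hN
    have h1 := hM.tri j x
    have h2 := hN.tri j i
    have h3 := hM.diag j x
    have h4 := hN.diag j i
    simp only [add_mul, mul_add, Matrix.add_apply, Flip.diag3]
    simp only [one_mul, mul_one, Matrix.one_apply_eq, hS, hT, h3, h4, h1, h2]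
    ring

/-! ### FB3 -/

/-- The graph with two vertices and one edge, of colour `j`. -/
theorem edge (k : ℕ) (j : Fin k) : HasType (fun i => (Matrix.of fun x y : Bool =>
    if i = j ∧ x ≠ y then (1 : ℝ) else 0)) (fun i => if i = j then 1 else 0) (fun _ => 0) := by
  refine ⟨?_, ?_, ?_, ?_, ?_⟩
  · intro x y
    simp only [Matrix.of_apply]
    by_cases h : x = y
    · left
      intro i
      rw [if_neg]
      exact fun h' => h'.2 h
    · right
      refine ⟨j, by rw [if_pos ⟨rfl, h⟩], ?_⟩
      intro i hij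
      rw [if_neg]
      exact fun h' => hij h'.1
  · intro i x y
    simp only [Matrix.of_apply, ne_comm]
  · intro i x
    simp
  · intro i x
    by_cases h : i = j
    · cases x <;> simp [h]
    · simp [h]
  · intro i x
    have hs : ∀ y z : Bool, (∑ i : Fin k, (Matrix.of fun x y : Bool =>
        if i = j ∧ x ≠ y then (1 : ℝ) else 0)) y z = if y ≠ z then 1 else 0 := by
      intro y z
      rw [Matrix.sum_apply, Finset.sum_eq_single j]
      · simp
      · intro i _ hij
        simp [hij]
      · intro h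
        exact absurd (Finset.mem_univ j) h
    rw [Matrix.mul_apply]
    simp only [Matrix.mul_apply, hs, Matrix.of_apply, Fintype.sum_bool]
    cases x <;> simp

theorem cube (hp : S_prod) : S_cube := by
  intro k d
  obtain ⟨n, hn⟩ : ∃ n, ∑ j, d j = n := ⟨_, rfl⟩
  induction n generalizing d with
  | zero =>
    have hd : ∀ j, d j = 0 := by
      intro j
      have := Finset.sum_eq_zero_iff.mp hn j (Finset.mem_univ j)
      exact this
    refine ⟨Unit, inferInstance, inferInstance, inferInstance, fun _ => 0, ?_⟩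
    refine ⟨?_, ?_, ?_, ?_, ?_⟩
    · intro x y
      left
      intro j
      rfl
    · intro j x y
      rfl
    · intro j x
      rfl
    · intro j x
      simp [hd]
    · intro j x
      simp
  | succ n ih =>
    obtain ⟨j, hj⟩ : ∃ j, 0 < d j := by
      by_contra hcon
      push Not at hcon
      have : ∑ j, d j = 0 := Finset.sum_eq_zero fun j _ => Nat.le_zero.mp (hcon j)
      omega
    let d' : Fin k → ℕ := fun i => if i = j then d j - 1 else d i
    have hd' : ∀ i, d i = d' i + if i = j then 1 else 0 := by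
      intro i
      by_cases h : i = j
      · subst h
        simp only [d', if_true]
        omega
      · simp only [d', if_neg h, add_zero]
    have hsum : ∑ i, d' i = n := by
      have h1 : ∑ i, d i = ∑ i, d' i + ∑ i, (if i = j then 1 else 0) := by
        rw [← Finset.sum_add_distrib]
        exact Finset.sum_congr rfl fun i _ => hd' i
      rw [Finset.sum_ite_eq' Finset.univ j, if_pos (Finset.mem_univ j), hn] at h1
      omega
    obtain ⟨V, hV1, hV2, hV3, M, hM⟩ := ih d' hsum
    refine ⟨V × Bool, inferInstance, inferInstance, inferInstance,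
      fun i => M i ⊗ₖ (1 : Matrix Bool Bool ℝ) + (1 : Matrix V V ℝ) ⊗ₖ
        (Matrix.of fun x y : Bool => if i = j ∧ x ≠ y then (1 : ℝ) else 0), ?_⟩
    · have h1 := hp k V Bool M _ d' _ _ _ hM (edge k j)
      have e1 : d = fun i => d' i + if i = j then 1 else 0 := funext hd'
      have e2 : (fun _ : Fin k => (0 : ℝ)) = fun _ => 0 + 0 := by
        funext _
        ring
      rw [e1, e2]
      exact h1

/-! ### FB4 -/

theorem sum01 {k : ℕ} {V : Type} [Fintype V] {M : Fin k → Matrix V V ℝ} {a : Fin k → ℕ}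
    {t : Fin k → ℝ} (h : HasType M a t) (x y : V) (j : Fin k) :
    M j x y * (∑ i, M i) x y = M j x y := by
  rw [Matrix.sum_apply]
  rcases h.val x y with h1 | ⟨i, h1, h2⟩
  · rw [h1, zero_mul]
  · by_cases hij : j = i
    · subst hij
      rw [Finset.sum_eq_single j, h1, one_mul]
      · intro l _ hl
        exact h2 l hl
      · intro hh
        exact absurd (Finset.mem_univ j) hh
    · rw [h2 j hij, zero_mul]

theorem sum_sym {k : ℕ} {V : Type} [Fintype V] {M : Fin k → Matrix V V ℝ} {a : Fin k → ℕ}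
    {t : Fin k → ℝ} (h : HasType M a t) (x y : V) : (∑ i, M i) x y = (∑ i, M i) y x := by
  rw [Matrix.sum_apply, Matrix.sum_apply]
  exact Finset.sum_congr rfl fun j _ => h.symm j x y

theorem sum_row {k : ℕ} {V : Type} [Fintype V] {M : Fin k → Matrix V V ℝ} {a : Fin k → ℕ}
    {t : Fin k → ℝ} (h : HasType M a t) (x : V) : ∑ y, (∑ i, M i) x y = ∑ i, (a i : ℝ) := by
  simp only [Matrix.sum_apply]
  rw [Finset.sum_comm]
  exact Finset.sum_congr rfl fun j _ => h.row j x

theorem lex : S_lex := by
  intro k V W _ _ _ _ C D c g hC hD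
  set J : Matrix V V ℝ := Matrix.of fun _ _ : V => (1 : ℝ) with hJ
  have hJa : ∀ x y, J x y = 1 := fun _ _ => rfl
  have happ : ∀ j (x y : V × W), (C j ⊗ₖ (1 : Matrix W W ℝ) + J ⊗ₖ D j) x y =
      C j x.1 y.1 * (if x.2 = y.2 then 1 else 0) + D j x.2 y.2 := by
    intro j x y
    rw [Matrix.add_apply, Matrix.kroneckerMap_apply, Matrix.kroneckerMap_apply, Matrix.one_apply,
      hJa, one_mul]
  refine ⟨?_, ?_, ?_, ?_, ?_⟩
  · intro x y
    simp only [happ]
    by_cases h2 : x.2 = y.2
    · rcases hC.val x.1 y.1 with h | ⟨j, hj, hi⟩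
      · left
        intro j
        rw [h, h2, hD.diag]
        ring
      · right
        refine ⟨j, ?_, ?_⟩
        · rw [hj, if_pos h2, h2, hD.diag]
          ring
        · intro i hij
          rw [hi i hij, h2, hD.diag]
          ring
    · rcases hD.val x.2 y.2 with h | ⟨j, hj, hi⟩
      · left
        intro j
        rw [h, if_neg h2]
        ring
      · right
        refine ⟨j, ?_, ?_⟩
        · rw [hj, if_neg h2]
          ring
        · intro i hij
          rw [hi i hij, if_neg h2]
          ring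
  · intro j x y
    rw [happ, happ, hC.symm j x.1 y.1, hD.symm j x.2 y.2]
    simp only [eq_comm]
  · intro j x
    rw [happ, hC.diag, hD.diag]
    ring
  · intro j x
    obtain ⟨x, i⟩ := x
    simp only [Matrix.add_apply, Finset.sum_add_distrib]
    rw [Flip.row_kron, Flip.row_kron, Flip.row_one, hC.row, hD.row]
    simp only [hJa]
    simp
  · intro j x
    obtain ⟨x, i⟩ := x
    rw [Finset.sum_add_distrib, sum_kron_one, sum_kron']
    set S := ∑ j, C j with hS
    set T := ∑ j, D j with hT
    have hSd := sum_diag hC x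
    have hTd := sum_diag hD i
    rw [← hS] at hSd
    rw [← hT] at hTd
    have h1 := hC.tri j x
    have h2 := hD.tri j i
    rw [← hS] at h1
    rw [← hT] at h2
    have h4 := hD.diag j i
    have e1 : (J * C j * J) x x = (Fintype.card V : ℝ) * c j := by
      rw [Matrix.mul_apply]
      simp only [Matrix.mul_apply, hJa, one_mul, mul_one]
      rw [Finset.sum_comm, Finset.sum_congr rfl fun y _ => hC.row j y, Finset.sum_const,
        Finset.card_univ, nsmul_eq_mul]
    have e2 : (T * T) i i = ∑ l, (g l : ℝ) := by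
      rw [Matrix.mul_apply, ← sum_row hD i]
      apply Finset.sum_congr rfl
      intro z _
      rw [hT, sum_sym hD z i]
      conv_lhs => rw [Matrix.sum_apply, Finset.sum_mul]
      rw [Matrix.sum_apply]
      apply Finset.sum_congr rfl
      intro l _
      have := sum01 hD i z l
      rw [Matrix.sum_apply] at this
      exact this
    have e3 : (S * J * J) x x = (∑ l, (c l : ℝ)) * Fintype.card V := by
      rw [Matrix.mul_apply]
      simp only [Matrix.mul_apply, hJa, mul_one]
      rw [Finset.sum_const, Finset.card_univ, nsmul_eq_mul, hS, sum_row hC x, mul_comm]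
    have e4 : (J * J * S) x x = (∑ l, (c l : ℝ)) * Fintype.card V := by
      rw [Matrix.mul_apply]
      simp only [Matrix.mul_apply, hJa, mul_one]
      rw [Finset.sum_const, Finset.card_univ, nsmul_eq_mul, mul_one, ← Finset.mul_sum, mul_comm]
      congr 1
      rw [← sum_row hC x]
      apply Finset.sum_congr rfl
      intro y _
      rw [hS, sum_sym hC]
    have e5 : (D j * T) i i = g j := by
      rw [Matrix.mul_apply, ← hD.row j i]
      apply Finset.sum_congr rfl
      intro z _
      rw [hT, sum_sym hD z i, sum01 hD]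
    have e6 : (T * D j) i i = g j := by
      rw [Matrix.mul_apply, ← hD.row j i]
      apply Finset.sum_congr rfl
      intro z _
      rw [hT, mul_comm, hD.symm j z i, sum01 hD]
    simp only [add_mul, mul_add, Matrix.add_apply, Flip.diag3]
    simp only [one_mul, mul_one, Matrix.one_apply_eq, hSd, hTd, h4, h1, h2, e1, e2, e3, e4, e5,
      e6]
    ring

/-! ### FB5 -/

theorem upper : S_upper := by
  classical
  intro k q h a hq hqk hk3 hfl hah j hj
  obtain ⟨hmono, hpos, V, hfin, hne, G, f, hdeg, hflip⟩ := hfl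
  have : Fintype V := Fintype.ofFinite V
  set lo : Finset (Fin k) := Finset.univ.filter (fun i => i.val < q) with hlo
  set hi : Finset (Fin k) := Finset.univ.filter (fun i => ¬ i.val < q) with hhi
  have hlc : lo.card = q := by
    rw [hlo, Fin.card_filter_val_lt]
    omega
  have hhc : (hi.card : ℝ) = k - q := by
    have h1 := Finset.card_filter_add_card_filter_not (s := (Finset.univ : Finset (Fin k)))
      (fun i => i.val < q)
    rw [← hlo, ← hhi, hlc, Finset.card_univ, Fintype.card_fin] at h1
    have : (q : ℝ) + hi.card = k := by exact_mod_cast h1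
    linarith
  let P : V → V → ℝ := fun x y => ∑ i ∈ lo, Flip.ind G f i x y
  let Q : V → V → ℝ := fun x y => ∑ i ∈ hi, Flip.ind G f i x y
  have hind0 : ∀ i x y, 0 ≤ Flip.ind G f i x y := by
    intro i x y
    unfold Flip.ind
    split_ifs <;> norm_num
  have hP0 : ∀ x y, 0 ≤ P x y := fun x y => Finset.sum_nonneg fun i _ => hind0 i x y
  have hQ0 : ∀ x y, 0 ≤ Q x y := fun x y => Finset.sum_nonneg fun i _ => hind0 i x y
  have hA : ∀ x y, Flip.adjI G x y = P x y + Q x y := by
    intro x y
    rw [← Flip.sum_ind G f x y]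
    exact (Finset.sum_filter_add_sum_filter_not Finset.univ (fun i : Fin k => i.val < q) _).symm
  have hA1 : ∀ x y, Flip.adjI G x y ≤ 1 := by
    intro x y
    unfold Flip.adjI
    split_ifs <;> norm_num
  set s : ℝ := ∑ i ∈ lo, (a i : ℝ) with hs
  set L : ℝ := ∑ i ∈ hi, (a i : ℝ) with hL
  have hs0 : 0 ≤ s := Finset.sum_nonneg fun i _ => Nat.cast_nonneg _
  have hrow : ∀ x, ∑ y, P x y = s := by
    intro x
    change ∑ y, ∑ i ∈ lo, Flip.ind G f i x y = s
    rw [Finset.sum_comm]
    apply Finset.sum_congr rfl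
    intro i _
    rw [Flip.sum_ind_row, hdeg]
  -- closed counts
  have hcl : ∀ v, (2 : ℝ) * ∑ i ∈ lo, (Flip.closedCount G f v i : ℝ) = 2 * s +
      ∑ x, ∑ y, Flip.adjI G v x * P x y * Flip.adjI G y v := by
    intro v
    rw [Finset.mul_sum, Finset.sum_congr rfl fun i _ => Flip.two_closedCount G f v i,
      Finset.sum_add_distrib, ← Finset.mul_sum, Finset.sum_congr rfl fun i _ => by rw [hdeg i v]]
    congr 1
    rw [Finset.sum_comm]
    apply Finset.sum_congr rfl
    intro x _
    rw [Finset.sum_comm]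
    apply Finset.sum_congr rfl
    intro y _
    simp only [P]
    rw [Finset.mul_sum, Finset.sum_mul]
  have hch : ∀ v, (2 : ℝ) * ∑ i ∈ hi, (Flip.closedCount G f v i : ℝ) = 2 * L +
      ∑ x, ∑ y, Flip.adjI G v x * Q x y * Flip.adjI G y v := by
    intro v
    rw [Finset.mul_sum, Finset.sum_congr rfl fun i _ => Flip.two_closedCount G f v i,
      Finset.sum_add_distrib, ← Finset.mul_sum, Finset.sum_congr rfl fun i _ => by rw [hdeg i v]]
    congr 1
    rw [Finset.sum_comm]
    apply Finset.sum_congr rfl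
    intro x _
    rw [Finset.sum_comm]
    apply Finset.sum_congr rfl
    intro y _
    simp only [Q]
    rw [Finset.mul_sum, Finset.sum_mul]
  have hpair : ∀ v, (q : ℝ) * ∑ i ∈ hi, (Flip.closedCount G f v i : ℝ) ≤
      (k - q) * ∑ i ∈ lo, (Flip.closedCount G f v i : ℝ) := by
    intro v
    have h1 : ∑ i ∈ lo, ∑ j ∈ hi, (Flip.closedCount G f v j : ℝ) ≤
        ∑ i ∈ lo, ∑ j ∈ hi, (Flip.closedCount G f v i : ℝ) := by
      apply Finset.sum_le_sum
      intro i hi'
      apply Finset.sum_le_sum
      intro j hj'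
      have h2 := hflip v i j (by
        rw [hlo, Finset.mem_filter] at hi'
        rw [hhi, Finset.mem_filter] at hj'
        rw [Fin.lt_def]
        omega)
      exact_mod_cast h2.le
    rw [Finset.sum_const, hlc, nsmul_eq_mul] at h1
    refine h1.trans (le_of_eq ?_)
    rw [Finset.mul_sum]
    apply Finset.sum_congr rfl
    intro i _
    rw [Finset.sum_const, nsmul_eq_mul, hhc]
  set n : ℝ := (Fintype.card V : ℝ) with hn
  have hn0 : 0 < n := by
    rw [hn]
    exact_mod_cast Fintype.card_pos
  -- sum over the vertices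
  have hloc : ∀ v, (q : ℝ) * (2 * L + ∑ x, ∑ y, Flip.adjI G v x * Q x y * Flip.adjI G y v) ≤
      (k - q) * (2 * s + ∑ x, ∑ y, Flip.adjI G v x * P x y * Flip.adjI G y v) := by
    intro v
    rw [← hcl v, ← hch v]
    have := hpair v
    nlinarith [this]
  have hsum := Finset.sum_le_sum (fun v (_ : v ∈ (Finset.univ : Finset V)) => hloc v)
  rw [← Finset.mul_sum, ← Finset.mul_sum, Finset.sum_add_distrib, Finset.sum_add_distrib,
    Finset.sum_const, Finset.sum_const, Finset.card_univ, nsmul_eq_mul, nsmul_eq_mul, ← hn] at hsum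
  have T : ∀ M : V → V → ℝ, ∑ v, ∑ x, ∑ y, Flip.adjI G v x * M x y * Flip.adjI G y v =
      ∑ v, ∑ x, ∑ y, P v x * M x y * P y v + ∑ v, ∑ x, ∑ y, P v x * M x y * Q y v +
      ∑ v, ∑ x, ∑ y, Q v x * M x y * P y v + ∑ v, ∑ x, ∑ y, Q v x * M x y * Q y v := by
    intro M
    simp only [← Finset.sum_add_distrib]
    apply Finset.sum_congr rfl
    intro v _
    apply Finset.sum_congr rfl
    intro x _
    apply Finset.sum_congr rfl
    intro y _
    rw [hA, hA]
    ring
  rw [T P, T Q] at hsum
  have r1 := Flip.rot P P Q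
  have r2 := Flip.rot Q P P
  have r3 := Flip.rot Q P Q
  have r4 := Flip.rot P Q Q
  have r5 := Flip.rot P Q P
  have hnn : ∀ X Y Z : V → V → ℝ, (∀ x y, 0 ≤ X x y) → (∀ x y, 0 ≤ Y x y) → (∀ x y, 0 ≤ Z x y) →
      0 ≤ ∑ v, ∑ x, ∑ y, X v x * Y x y * Z y v := by
    intro X Y Z hX hY hZ
    exact Finset.sum_nonneg fun v _ => Finset.sum_nonneg fun x _ => Finset.sum_nonneg fun y _ =>
      mul_nonneg (mul_nonneg (hX _ _) (hY _ _)) (hZ _ _)
  have hppp := hnn P P P hP0 hP0 hP0
  have hqqq := hnn Q Q Q hQ0 hQ0 hQ0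
  have hppq := hnn P P Q hP0 hP0 hQ0
  have hpqq := hnn P Q Q hP0 hQ0 hQ0
  have hppA : ∑ v, ∑ x, ∑ y, P v x * P x y * P y v + ∑ v, ∑ x, ∑ y, P v x * P x y * Q y v ≤
      n * s ^ 2 := by
    have e1 : ∑ v, ∑ x, ∑ y, P v x * P x y * P y v + ∑ v, ∑ x, ∑ y, P v x * P x y * Q y v =
        ∑ v, ∑ x, ∑ y, P v x * P x y * Flip.adjI G y v := by
      simp only [← Finset.sum_add_distrib]
      apply Finset.sum_congr rfl
      intro v _
      apply Finset.sum_congr rfl
      intro x _
      apply Finset.sum_congr rfl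
      intro y _
      rw [hA]
      ring
    rw [e1]
    calc ∑ v, ∑ x, ∑ y, P v x * P x y * Flip.adjI G y v
        ≤ ∑ v, ∑ x, ∑ y, P v x * P x y := by
          apply Finset.sum_le_sum
          intro v _
          apply Finset.sum_le_sum
          intro x _
          apply Finset.sum_le_sum
          intro y _
          calc P v x * P x y * Flip.adjI G y v ≤ P v x * P x y * 1 :=
                mul_le_mul_of_nonneg_left (hA1 y v) (mul_nonneg (hP0 _ _) (hP0 _ _))
            _ = _ := mul_one _
      _ = n * s ^ 2 := by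
          have : ∀ v, ∑ x, ∑ y, P v x * P x y = s ^ 2 := by
            intro v
            have : ∀ x, ∑ y, P v x * P x y = P v x * s := by
              intro x
              rw [← Finset.mul_sum, hrow]
            rw [Finset.sum_congr rfl fun x _ => this x, ← Finset.sum_mul, hrow]
            ring
          rw [Finset.sum_congr rfl fun v _ => this v, Finset.sum_const, Finset.card_univ,
            nsmul_eq_mul]
  set PPP := ∑ v, ∑ x, ∑ y, P v x * P x y * P y v with hPPP
  set PPQ := ∑ v, ∑ x, ∑ y, P v x * P x y * Q y v with hPPQ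
  set PQQ := ∑ v, ∑ x, ∑ y, P v x * Q x y * Q y v with hPQQ
  set QQQ := ∑ v, ∑ x, ∑ y, Q v x * Q x y * Q y v with hQQQ
  have hq' : (1 : ℝ) ≤ q := by exact_mod_cast hq
  have hk' : (k : ℝ) ≤ 3 * q := by exact_mod_cast hk3
  have hqk' : (q : ℝ) < k := by exact_mod_cast hqk
  have hTS : (k - q : ℝ) * (PPP + 2 * PPQ + PQQ) ≤ q * (PPQ + 2 * PQQ + QQQ) + 3 * q * (n * s ^ 2) := by
    have h1 : (k - q : ℝ) * (PPP + 2 * PPQ + PQQ) ≤ 2 * q * (PPP + 2 * PPQ + PQQ) := by
      apply mul_le_mul_of_nonneg_right
      · linarith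
      · linarith
    have h2 : 2 * (PPP + 2 * PPQ + PQQ) ≤ (PPQ + 2 * PQQ + QQQ) + 3 * (PPP + PPQ) := by linarith
    have h3 : 2 * (PPP + 2 * PPQ + PQQ) ≤ (PPQ + 2 * PQQ + QQQ) + 3 * (n * s ^ 2) := by linarith
    have h4 := mul_le_mul_of_nonneg_left h3 (by linarith : (0 : ℝ) ≤ q)
    nlinarith
  have hmain : (q : ℝ) * (2 * L) ≤ (k - q) * (2 * s) + 3 * q * s ^ 2 := by
    have h1 : n * (q * (2 * L)) ≤ n * ((k - q) * (2 * s) + 3 * q * s ^ 2) := by
      nlinarith [hsum, hTS, r1, r2, r3, r4, r5]
    exact le_of_mul_le_mul_left h1 hn0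
  have hsq : s ≤ q * h := by
    rw [hs]
    calc ∑ i ∈ lo, (a i : ℝ) ≤ ∑ _i ∈ lo, (h : ℝ) := by
          apply Finset.sum_le_sum
          intro i hi'
          rw [hlo, Finset.mem_filter] at hi'
          exact_mod_cast hah i hi'.2
      _ = q * h := by rw [Finset.sum_const, hlc, nsmul_eq_mul]
  have hLb : L ≤ k * s + 3 * s ^ 2 := by
    have h1 : (k - q : ℝ) * (2 * s) ≤ q * (2 * (k * s)) := by
      have : (k - q : ℝ) * (2 * s) ≤ k * (2 * s) :=
        mul_le_mul_of_nonneg_right (by linarith) (by linarith)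
      have h2 : k * (2 * s) ≤ q * (2 * (k * s)) := by
        have : (0 : ℝ) ≤ 2 * (k * s) := by positivity
        nlinarith
      linarith
    have h3 : 3 * q * s ^ 2 ≤ q * (2 * (3 * s ^ 2)) := by nlinarith [sq_nonneg s]
    have h4 : (q : ℝ) * (2 * L) ≤ q * (2 * (k * s + 3 * s ^ 2)) := by nlinarith
    have h5 := le_of_mul_le_mul_left h4 (by linarith : (0 : ℝ) < q)
    linarith
  have hjL : (a j : ℝ) ≤ L := by
    rw [hL]
    apply Finset.single_le_sum (f := fun i => (a i : ℝ)) (fun i _ => Nat.cast_nonneg _)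
    rw [hhi, Finset.mem_filter]
    exact ⟨Finset.mem_univ _, by omega⟩
  have hfin : (a j : ℝ) ≤ k * (q * h) + 3 * (q * h) ^ 2 := by
    have h1 : (k : ℝ) * s ≤ k * (q * h) := mul_le_mul_of_nonneg_left hsq (Nat.cast_nonneg _)
    have h2 : s ^ 2 ≤ (q * h) ^ 2 := pow_le_pow_left₀ hs0 hsq 2
    linarith
  exact_mod_cast hfin

end Pool.Agent.Q104.FB
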